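import Pool.Agent.Q127.SM.Stm

/-! Project SM (helper127), job TWF (helper13): a twist of a form whose level is divisible by the
square of the conductor is a form of the same level. -/

set_option autoImplicit false

open Complex Matrix.SpecialLinearGroup MatrixGroups ModularGroup

namespace Pool.Agent.Q13.SM

open Pool.Agent.TH133.SH Pool.Agent.Q127.SM

variable {a a' : ℕ → ℤ} {N D : ℕ}

lemma im_shift (τ : ℂ) (u : ℕ) (D : ℕ) : (τ + (u : ℂ) / (D : ℂ)).im = τ.im := by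
  have h1 : ((u : ℂ) / (D : ℂ)).im = 0 := by
    have : ((u : ℂ) / (D : ℂ)) = (((u : ℝ) / (D : ℝ) : ℝ) : ℂ) := by push_cast; rfl
    rw [this, Complex.ofReal_im]
  rw [Complex.add_im, h1, add_zero]

/-- the proof of `twist_Hs` with `τ` in place of `i` -/
theorem twist_diff [NeZero D] (ha : IsForm N a) (hN : D ^ 2 ∣ N)
    {χ : DirichletCharacter ℂ D} (h : OddQuadratic D χ)
    (htw : ∀ n : ℕ, (a' n : ℂ) = χ (n : ZMod D) * (a n : ℂ)) {γ : SL(2, ℤ)} (hγ : InG N γ) :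
    ∃ C : ℂ, ∀ τ : ℂ, 0 < τ.im → gs χ * (Fser a' (act γ τ) - Fser a' τ) = C := by
  have hD : D ≠ 0 := NeZero.ne D
  choose δ h1 h2 h3 using fun u : ZMod D => exists_shift hN hD hγ (u.val : ℤ)
  refine ⟨∑ u : ZMod D, χ u * Hs a (δ u), fun τ hI => ?_⟩
  have hsum := ha.summable
  -- the class of the lower right entry
  have hs : IsUnit (((γ 1 1 : ℤ) : ZMod D)) := by
    apply IsUnit.of_mul_eq_one (b := ((γ 0 0 : ℤ) : ZMod D))
    have hr : ((γ 1 0 : ℤ) : ZMod D) = 0 := by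
      rw [ZMod.intCast_zmod_eq_zero_iff_dvd]
      refine dvd_trans ?_ hγ
      exact_mod_cast (dvd_pow_self D (by norm_num)).trans hN
    have hdet := congrArg (fun x : ℤ => (x : ZMod D)) (det_eq γ)
    simp only [Int.cast_sub, Int.cast_mul, Int.cast_one, hr, mul_zero, sub_zero] at hdet
    rw [mul_comm]
    exact hdet
  set c : ZMod D := ((γ 1 1 : ℤ) : ZMod D) with hc
  have hc2 : χ (c ^ 2) = 1 := by
    rw [map_pow]
    have h5 := congrArg (fun ψ : DirichletCharacter ℂ D => ψ c) h.sq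
    simp only [pow_two, MulChar.mul_apply] at h5
    rw [pow_two, h5, MulChar.one_apply hs]
  -- the values of the primitive
  have h4 : ∀ u : ZMod D, Phi a D (act γ τ) u =
      Phi a D τ (c ^ 2 * u) + Hs a (δ u) := by
    intro u
    have him : 0 < (τ + (((γ 1 1) ^ 2 * (u.val : ℤ) : ℤ) : ℂ) / (D : ℂ)).im := by
      have : ((((γ 1 1) ^ 2 * (u.val : ℤ) : ℤ) : ℂ) / (D : ℂ)) =
          (((((γ 1 1) ^ 2 * (u.val : ℤ) : ℤ) : ℝ) / (D : ℝ) : ℝ) : ℂ) := by push_cast; rfl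
      rw [Complex.add_im, this, Complex.ofReal_im, add_zero]
      exact hI
    have h5 := diff_eq ha (h1 u) him
    rw [h3 u τ hI] at h5
    have h6 : Phi a D (act γ τ) u = Fser a (act γ τ + ((u.val : ℤ) : ℂ) / (D : ℂ)) := by
      unfold Phi
      rw [Int.cast_natCast]
    have h7 : Phi a D τ (c ^ 2 * u) =
        Fser a (τ + (((γ 1 1) ^ 2 * (u.val : ℤ) : ℤ) : ℂ) / (D : ℂ)) := by
      rw [← Phi_int]
      congr 1
      push_cast
      rw [ZMod.natCast_zmod_val]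
    rw [h6, h7]
    linear_combination h5
  have h5 : ∑ u : ZMod D, χ u * Phi a D τ (c ^ 2 * u) =
      ∑ u : ZMod D, χ u * Phi a D τ u := by
    have hb : Function.Bijective (fun u : ZMod D => c ^ 2 * u) := by
      have hu : IsUnit (c ^ 2) := hs.pow 2
      refine ⟨fun x y hxy => hu.mul_left_cancel hxy, fun y => ?_⟩
      obtain ⟨v, hv⟩ := hu
      refine ⟨(v⁻¹ : (ZMod D)ˣ) * y, ?_⟩
      change c ^ 2 * ((v⁻¹ : (ZMod D)ˣ) * y) = y
      rw [← hv, ← mul_assoc, Units.mul_inv, one_mul]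
    rw [← hb.sum_comp (fun u : ZMod D => χ u * Phi a D τ u)]
    refine Finset.sum_congr rfl (fun u _ => ?_)
    rw [map_mul, hc2, one_mul]
  rw [mul_sub, ← twist_Fser hsum h htw (act_im_pos γ hI), ← twist_Fser hsum h htw hI,
    Finset.sum_congr rfl (fun u _ => by rw [h4 u, mul_add] : ∀ u ∈ Finset.univ,
      χ u * Phi a D (act γ τ) u = χ u * Phi a D τ (c ^ 2 * u) + χ u * Hs a (δ u)),
    Finset.sum_add_distrib, h5]
  ring

lemma norm_chi_le {χ : DirichletCharacter ℂ D} (h : OddQuadratic D χ) (u : ZMod D) : ‖χ u‖ ≤ 1 := by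
  obtain ⟨e, he, he1⟩ := chi_val h u
  rw [he, Complex.norm_intCast]
  exact_mod_cast he1

/-- the twisting formula for the form -/
lemma twist_fser [NeZero D] (h0 : a 0 = 0) (h0' : a' 0 = 0)
    (hs : ∀ τ : ℂ, 0 < τ.im → Summable (fun k : ℕ => (a k : ℂ) *
      Complex.exp (2 * (Real.pi : ℂ) * Complex.I * (k : ℂ) * τ)))
    (hs' : ∀ τ : ℂ, 0 < τ.im → Summable (fun k : ℕ => (a' k : ℂ) *
      Complex.exp (2 * (Real.pi : ℂ) * Complex.I * (k : ℂ) * τ)))
    {χ : DirichletCharacter ℂ D} (h : OddQuadratic D χ)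
    (htw : ∀ n : ℕ, (a' n : ℂ) = χ (n : ZMod D) * (a n : ℂ)) {τ : ℂ} (hτ : 0 < τ.im) :
    ∑ u : ZMod D, χ u * fser a (τ + (u.val : ℂ) / (D : ℂ)) = gs χ * fser a' τ := by
  have h1 : HasDerivAt (fun z : ℂ => ∑ u : ZMod D, χ u * Fser a (z + (u.val : ℂ) / (D : ℂ)))
      (∑ u : ZMod D, χ u * (2 * (Real.pi : ℂ) * Complex.I * fser a (τ + (u.val : ℂ) / (D : ℂ)))) τ := by
    refine HasDerivAt.fun_sum fun u _ => ?_
    refine HasDerivAt.const_mul _ ?_
    have h2 : HasDerivAt (Fser a) (2 * (Real.pi : ℂ) * Complex.I *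
        fser a (τ + (u.val : ℂ) / (D : ℂ))) (τ + (u.val : ℂ) / (D : ℂ)) :=
      hasDerivAt_Fser h0 hs (by rw [im_shift]; exact hτ)
    exact h2.comp_add_const τ _
  have h3 : HasDerivAt (fun z : ℂ => gs χ * Fser a' z)
      (gs χ * (2 * (Real.pi : ℂ) * Complex.I * fser a' τ)) τ :=
    (hasDerivAt_Fser h0' hs' hτ).const_mul _
  have h4 : (fun z : ℂ => ∑ u : ZMod D, χ u * Fser a (z + (u.val : ℂ) / (D : ℂ))) =ᶠ[nhds τ]
      fun z : ℂ => gs χ * Fser a' z := by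
    have ho : {z : ℂ | 0 < z.im} ∈ nhds τ :=
      (isOpen_lt continuous_const Complex.continuous_im).mem_nhds hτ
    filter_upwards [ho] with z hz
    exact twist_Fser hs h htw hz
  have h5 := (h1.congr_of_eventuallyEq h4.symm).unique h3
  have h6 : (2 * (Real.pi : ℂ) * Complex.I) ≠ 0 := Complex.two_pi_I_ne_zero
  apply mul_left_cancel₀ h6
  rw [Finset.mul_sum]
  rw [show 2 * (Real.pi : ℂ) * Complex.I * (gs χ * fser a' τ) =
    gs χ * (2 * (Real.pi : ℂ) * Complex.I * fser a' τ) by ring, ← h5]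
  exact Finset.sum_congr rfl fun u _ => by ring

theorem twf : S_twf := by
  intro M D a b χ hM ha hD hχ htw
  have hD0 : D ≠ 0 := by
    rintro rfl
    rw [zero_pow two_ne_zero, zero_dvd_iff] at hD
    omega
  haveI : NeZero D := ⟨hD0⟩
  have hb0 : b 0 = 0 := by
    have h1 := htw 0
    rw [ha.zero] at h1
    simpa using h1
  have hbs : ∀ τ : ℂ, 0 < τ.im → Summable (fun k : ℕ => (b k : ℂ) *
      Complex.exp (2 * (Real.pi : ℂ) * Complex.I * (k : ℂ) * τ)) := by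
    intro τ hτ
    refine Summable.of_norm_bounded (ha.summable τ hτ).norm fun k => ?_
    rw [norm_mul, norm_mul, htw k, norm_mul]
    have h1 := norm_chi_le hχ (k : ZMod D)
    have h2 : ‖χ (k : ZMod D)‖ * ‖(a k : ℂ)‖ ≤ 1 * ‖(a k : ℂ)‖ :=
      mul_le_mul_of_nonneg_right h1 (norm_nonneg _)
    rw [one_mul] at h2
    exact mul_le_mul_of_nonneg_right h2 (norm_nonneg _)
  have hg : gs χ ≠ 0 := gs_ne_zero hχ
  have hgn : 0 < ‖gs χ‖ := norm_pos_iff.2 hg
  refine ⟨hb0, hbs, ?_, ?_⟩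
  · intro τ hτ p q r s hdet hr
    have hdet' : p * s - q * r = 1 := hdet
    set γ : SL(2, ℤ) := mk p q r s hdet' with hγ
    have hγN : InG M γ := hr
    obtain ⟨C, hC⟩ := twist_diff ha hD hχ htw hγN
    have hdr : (p : ℝ) * s - q * r = 1 := by exact_mod_cast hdet
    have e2 : ∀ z, act γ z = mob (p : ℝ) (q : ℝ) (r : ℝ) (s : ℝ) z := fun z => rfl
    have h1 : HasDerivAt (fun z => gs χ * (Fser b (mob (p : ℝ) (q : ℝ) (r : ℝ) (s : ℝ) z) - Fser b z))
        (gs χ * (2 * (Real.pi : ℂ) * Complex.I * fser b (mob (p : ℝ) (q : ℝ) (r : ℝ) (s : ℝ) τ) *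
          (1 / (((r : ℝ) : ℂ) * τ + ((s : ℝ) : ℂ)) ^ 2) -
          2 * (Real.pi : ℂ) * Complex.I * fser b τ)) τ :=
      (((hasDerivAt_Fser hb0 hbs (im_mob_pos hdr hτ)).comp τ (hasDerivAt_mob hdr hτ)).sub
        (hasDerivAt_Fser hb0 hbs hτ)).const_mul _
    have h2 : (fun z => gs χ * (Fser b (mob (p : ℝ) (q : ℝ) (r : ℝ) (s : ℝ) z) - Fser b z))
        =ᶠ[nhds τ] fun _ => C := by
      have ho : {z : ℂ | 0 < z.im} ∈ nhds τ :=
        (isOpen_lt continuous_const Complex.continuous_im).mem_nhds hτ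
      filter_upwards [ho] with z hz
      rw [← e2]
      exact hC z hz
    have h3 := (h1.congr_of_eventuallyEq h2.symm).unique (hasDerivAt_const τ C)
    have h6 : (2 * (Real.pi : ℂ) * Complex.I) ≠ 0 := Complex.two_pi_I_ne_zero
    have h7 := (mul_eq_zero.1 h3).resolve_left hg
    have hden : ((r : ℝ) : ℂ) * τ + ((s : ℝ) : ℂ) ≠ 0 := den_ne hdr hτ
    have h8 : fser b (mob (p : ℝ) (q : ℝ) (r : ℝ) (s : ℝ) τ) *
        (1 / (((r : ℝ) : ℂ) * τ + ((s : ℝ) : ℂ)) ^ 2) = fser b τ := by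
      apply mul_left_cancel₀ h6
      linear_combination h7
    have h9 : mob (p : ℝ) (q : ℝ) (r : ℝ) (s : ℝ) τ =
        ((p : ℂ) * τ + (q : ℂ)) / ((r : ℂ) * τ + (s : ℂ)) := by
      unfold mob
      push_cast
      rfl
    rw [h9] at h8
    push_cast at h8 hden
    rw [← h8]
    generalize fser b (((p : ℂ) * τ + (q : ℂ)) / ((r : ℂ) * τ + (s : ℂ))) = Y
    generalize ((r : ℂ) * τ + (s : ℂ)) = X at hden ⊢
    field_simp
  · obtain ⟨B, hB⟩ := ha.bounded
    refine ⟨D * B / ‖gs χ‖, fun τ hτ => ?_⟩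
    rw [le_div_iff₀ hgn]
    have h1 := twist_fser ha.zero hb0 ha.summable hbs hχ htw hτ
    have h2 : ‖gs χ‖ * ‖fser b τ‖ ≤ ∑ u : ZMod D, ‖fser a (τ + (u.val : ℂ) / (D : ℂ))‖ := by
      rw [← norm_mul, ← h1]
      refine (norm_sum_le _ _).trans (Finset.sum_le_sum fun u _ => ?_)
      rw [norm_mul]
      calc ‖χ u‖ * ‖fser a (τ + (u.val : ℂ) / (D : ℂ))‖
          ≤ 1 * ‖fser a (τ + (u.val : ℂ) / (D : ℂ))‖ :=
            mul_le_mul_of_nonneg_right (norm_chi_le hχ u) (norm_nonneg _)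
        _ = _ := one_mul _
    have h3 : ∀ u : ZMod D, τ.im * ‖fser a (τ + (u.val : ℂ) / (D : ℂ))‖ ≤ B := by
      intro u
      have h4 := hB (τ + (u.val : ℂ) / (D : ℂ)) (by rw [im_shift]; exact hτ)
      rwa [im_shift] at h4
    calc τ.im * ‖fser b τ‖ * ‖gs χ‖ = τ.im * (‖gs χ‖ * ‖fser b τ‖) := by ring
      _ ≤ τ.im * ∑ u : ZMod D, ‖fser a (τ + (u.val : ℂ) / (D : ℂ))‖ :=
          mul_le_mul_of_nonneg_left h2 hτ.le
      _ = ∑ u : ZMod D, τ.im * ‖fser a (τ + (u.val : ℂ) / (D : ℂ))‖ := Finset.mul_sum _ _ _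
      _ ≤ ∑ _u : ZMod D, B := Finset.sum_le_sum fun u _ => h3 u
      _ = D * B := by
          rw [Finset.sum_const, Finset.card_univ, ZMod.card, nsmul_eq_mul]

end Pool.Agent.Q13.SM
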