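import Pool.Agent.Q201.AR.Stm3

set_option autoImplicit false

/-!
Project AR: the variables of a code are at most the code.
-/

open FirstOrder FirstOrder.Language Pool.Agent.Helper227.EN

namespace Q13.AR

open Q201.AR

theorem t_VARB : S_VARB := by
  intro c
  refine code_ind (P := fun c => ∀ (M : Type) [LA.Structure M] (e e' : ℕ → M),
    (∀ i, i ≤ c → e i = e' i) → (Sat M c e ↔ Sat M c e')) ?_ ?_ ?_ ?_ ?_ ?_ ?_ ?_ c
  · intro i M _ e e' h
    rw [Sat_cz, Sat_cz, h i (by unfold cz; omega)]
  · intro i M _ e e' h
    rw [Sat_co, Sat_co, h i (by unfold co; omega)]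
  · intro i j M _ e e' h
    have h1 := Nat.left_le_pair i j
    have h2 := Nat.right_le_pair i j
    rw [Sat_ceq, Sat_ceq, h i (by unfold ceq; omega), h j (by unfold ceq; omega)]
  · intro i j M _ e e' h
    have h1 := Nat.left_le_pair i j
    have h2 := Nat.right_le_pair i j
    rw [Sat_clt, Sat_clt, h i (by unfold clt; omega), h j (by unfold clt; omega)]
  · intro i j k M _ e e' h
    have h1 := Nat.left_le_pair i (Nat.pair j k)
    have h2 := Nat.right_le_pair i (Nat.pair j k)
    have h3 := Nat.left_le_pair j k
    have h4 := Nat.right_le_pair j k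
    rw [Sat_cad, Sat_cad, h i (by unfold cad; omega), h j (by unfold cad; omega),
      h k (by unfold cad; omega)]
  · intro i j k M _ e e' h
    have h1 := Nat.left_le_pair i (Nat.pair j k)
    have h2 := Nat.right_le_pair i (Nat.pair j k)
    have h3 := Nat.left_le_pair j k
    have h4 := Nat.right_le_pair j k
    rw [Sat_cml, Sat_cml, h i (by unfold cml; omega), h j (by unfold cml; omega),
      h k (by unfold cml; omega)]
  · intro a b ha hb M _ e e' h
    have h1 := Nat.left_le_pair a b
    have h2 := Nat.right_le_pair a b
    rw [Sat_cnor, Sat_cnor, ha M e e' fun i hi => h i (by unfold cnor; omega),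
      hb M e e' fun i hi => h i (by unfold cnor; omega)]
  · intro i a ha M _ e e' h
    have h2 := Nat.right_le_pair i a
    rw [Sat_cex, Sat_cex]
    refine exists_congr fun x => ha M _ _ fun j hj => ?_
    by_cases hji : j = i
    · subst hji
      simp
    · rw [Function.update_of_ne hji, Function.update_of_ne hji]
      exact h j (by unfold cex; omega)

end Q13.AR
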