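import Mathlib

/-!
# Polynomials taking values in `D` at all natural numbers, where `D` contains `ℚ`
-/

open Polynomial

namespace Q13.LagrangeInt

/-- If `D` is an algebra over a field of characteristic zero `k`, then a polynomial over a field
`K ⊇ D` whose values at all natural numbers lie in `D` has coefficients in `D`. -/
theorem exists_map_eq {k D K : Type*} [Field k] [CharZero k] [CommRing D] [Field K]
    [Algebra k D] [Algebra D K] [Algebra k K] [IsScalarTower k D K] (f : K[X])
    (h : ∀ n : ℕ, ∃ d : D, algebraMap D K d = f.eval (n : K)) :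
    ∃ g : D[X], g.map (algebraMap D K) = f := by
  have hcz : CharZero K := charZero_of_injective_algebraMap (algebraMap k K).injective
  have hint : f = Lagrange.interpolate (Finset.range (f.natDegree + 1)) (fun i : ℕ => (i : K))
      (fun i => f.eval (i : K)) := by
    apply Lagrange.eq_interpolate
    · intro i _ j _ hij
      exact Nat.cast_injective hij
    · rw [Finset.card_range]
      refine lt_of_le_of_lt degree_le_natDegree ?_
      exact_mod_cast Nat.lt_succ_self _
  suffices hf : f ∈ (mapRingHom (algebraMap D K)).range by
    obtain ⟨g, hg⟩ := hf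
    exact ⟨g, hg⟩
  rw [hint, Lagrange.interpolate_apply]
  refine sum_mem fun i _ => ?_
  refine mul_mem ?_ ?_
  · obtain ⟨d, hd⟩ := h i
    exact ⟨C d, by simp [hd]⟩
  · rw [Lagrange.basis]
    refine prod_mem fun j _ => ?_
    rw [Lagrange.basisDivisor]
    refine mul_mem ?_ ?_
    · refine ⟨C (algebraMap k D (((i : k) - (j : k))⁻¹)), ?_⟩
      rw [coe_mapRingHom, map_C, ← IsScalarTower.algebraMap_apply, map_inv₀]
      simp
    · exact ⟨X - C (j : D), by simp⟩

end Q13.LagrangeInt
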