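import Pool.Agent.Q88.MF.Stm

/-!
Project MF, job KEY.
-/

set_option autoImplicit false

noncomputable section

namespace Pool.Agent.Q13.MF

open Pool.Agent.Q88.MF

theorem key : S_key := by
  intro a t r ha ht hm
  have ha0 : 0 < a := by linarith
  have hnt : ¬ t ≤ 0 := not_le.2 ht
  have hmt : mf a t = if t < 1 then Real.exp (1 - t ^ (-a)) else t := by
    unfold mf; rw [if_neg hnt]
  by_cases ht1 : t < 1
  · rw [if_pos ht1] at hmt
    have hr : 0 < r := lt_of_lt_of_le (by rw [hmt]; exact Real.exp_pos _) hm
    by_cases hr1 : r < 1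
    · have hk : kap a r = r * (1 - Real.log r) ^ (1 / a) := by
        unfold kap; rw [if_neg (not_le.2 hr), if_pos hr1]
      rw [hk]
      have hlog : Real.log r < 0 := Real.log_neg hr hr1
      have h1 : 1 - t ^ (-a) ≤ Real.log r := by
        rw [Real.le_log_iff_exp_le hr, ← hmt]
        exact hm
      have h2 : 1 - Real.log r ≤ t ^ (-a) := by linarith
      have h3 : (1 - Real.log r) ^ (1 / a) ≤ (t ^ (-a)) ^ (1 / a) :=
        Real.rpow_le_rpow (by linarith) h2 (by positivity)
      have h4 : (t ^ (-a)) ^ (1 / a) = t⁻¹ := by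
        rw [← Real.rpow_mul ht.le]
        have h5 : -a * (1 / a) = -1 := by field_simp
        rw [h5, Real.rpow_neg_one]
      rw [h4] at h3
      calc t * (r * (1 - Real.log r) ^ (1 / a)) = r * (t * (1 - Real.log r) ^ (1 / a)) := by ring
        _ ≤ r * (t * t⁻¹) := by
            apply mul_le_mul_of_nonneg_left _ hr.le
            exact mul_le_mul_of_nonneg_left h3 ht.le
        _ = r := by rw [mul_inv_cancel₀ ht.ne', mul_one]
    · have hk : kap a r = 1 := by
        unfold kap; rw [if_neg (not_le.2 hr), if_neg hr1]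
      rw [hk, mul_one]
      linarith
  · rw [if_neg ht1] at hmt
    rw [hmt] at hm
    have hr : 0 < r := lt_of_lt_of_le ht hm
    have hr1 : ¬ r < 1 := by
      intro h; exact ht1 (lt_of_le_of_lt hm h)
    have hk : kap a r = 1 := by
      unfold kap; rw [if_neg (not_le.2 hr), if_neg hr1]
    rw [hk, mul_one]
    exact hm

end Pool.Agent.Q13.MF
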