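import Pool.Agent.Q82.QD.Stm

/-! QD-SPH: the spherical solution (for helper82, project QD). -/

set_option autoImplicit false

open MeasureTheory Filter Topology Real InnerProductSpace Laplacian Set

namespace Pool.Agent.Q82.QD

theorem sph_key (h1 : S_LOP) (f : ℝ → ℝ) (hf : Continuous f) (G P : ℝ → ℝ) (hG0 : G 0 = 0)
    (hGc : ContinuousOn G (Ici 0)) (hP0 : P 0 = 0)
    (hP : ∀ t, 0 ≤ t → HasDerivAt P (t / 4 * f t) t)
    (hG : ∀ s, 0 < s → HasDerivAt G ((s ^ 2)⁻¹ * P s) s) : ∀ s, 0 ≤ s → Lop f s = G s := by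
  obtain ⟨hc, hd, hs, -⟩ := h1 f hf
  have hL0 : Lop f 0 = 0 := by
    unfold Lop
    exact intervalIntegral.integral_same
  have hI : ∀ s, 0 < s → ∫ t in (0 : ℝ)..s, t / 4 * f t = P s := by
    intro s hs0
    have h5 : ∫ t in (0 : ℝ)..s, t / 4 * f t = P s - P 0 := by
      refine intervalIntegral.integral_eq_sub_of_hasDerivAt (fun x hx => ?_) ?_
      · rw [uIcc_of_le hs0.le] at hx
        exact hP x hx.1
      · apply Continuous.intervalIntegrable
        fun_prop
    rw [h5, hP0, sub_zero]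
  intro s hs0
  have h3 : ∀ x ∈ Ioo 0 s, HasDerivAt (fun y => Lop f y - G y) ((fun _ => (0 : ℝ)) x) x := by
    intro x hx
    have h3 := (hd x).sub (hG x hx.1)
    rw [hs x hx.1, hI x hx.1, sub_self] at h3
    exact h3
  have h2 := intervalIntegral.integral_eq_sub_of_hasDerivAt_of_le (E := ℝ) hs0
    (hc.continuousOn.sub (hGc.mono Icc_subset_Ici_self)) h3 intervalIntegrable_const
  simp only [intervalIntegral.integral_zero, Pi.sub_apply, hL0, hG0, sub_zero] at h2
  linarith

theorem sph_first (h1 : S_LOP) : ∀ s : ℝ, 0 ≤ s →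
    Lop (fun t => 96 / (1 + |t|) ^ 4) s = 8 - (4 * s + 8) / (1 + s) ^ 2 := by
  have hf : Continuous (fun t : ℝ => 96 / (1 + |t|) ^ 4) := by
    refine Continuous.div continuous_const (by fun_prop) ?_
    intro t
    positivity
  refine sph_key h1 _ hf (fun s => 8 - (4 * s + 8) / (1 + s) ^ 2)
    (fun t => 24 * (-(1 / (2 * (1 + t) ^ 2)) + 1 / (3 * (1 + t) ^ 3)) + 4) (by norm_num) ?_
    (by norm_num) ?_ ?_
  · refine ContinuousOn.sub continuousOn_const (ContinuousOn.div (by fun_prop) (by fun_prop) ?_)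
    intro x hx
    have hx' : (0 : ℝ) ≤ x := hx
    positivity
  · intro t ht
    have ht1 : (1 + t) ≠ 0 := by positivity
    have ha : HasDerivAt (fun t : ℝ => 1 + t) 1 t := by
      simpa using (hasDerivAt_id t).const_add 1
    have h2 : HasDerivAt (fun t : ℝ => 1 / (2 * (1 + t) ^ 2))
        ((0 * (2 * (1 + t) ^ 2) - 1 * (2 * (2 * (1 + t) * 1))) / (2 * (1 + t) ^ 2) ^ 2) t := by
      refine HasDerivAt.div (hasDerivAt_const t 1) ?_ (by positivity)
      simpa using (ha.pow 2).const_mul 2
    have h3 : HasDerivAt (fun t : ℝ => 1 / (3 * (1 + t) ^ 3))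
        ((0 * (3 * (1 + t) ^ 3) - 1 * (3 * (3 * (1 + t) ^ 2 * 1))) / (3 * (1 + t) ^ 3) ^ 2) t := by
      refine HasDerivAt.div (hasDerivAt_const t 1) ?_ (by positivity)
      simpa using (ha.pow 3).const_mul 3
    have h4 := ((h2.neg.add h3).const_mul 24).add_const 4
    refine h4.congr_deriv ?_
    rw [abs_of_nonneg ht]
    field_simp
    ring
  · intro s hs
    have hs1 : (1 + s) ≠ 0 := by positivity
    have ha : HasDerivAt (fun t : ℝ => 1 + t) 1 s := by
      simpa using (hasDerivAt_id s).const_add 1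
    have hb : HasDerivAt (fun t : ℝ => 4 * t + 8) 4 s := by
      simpa using ((hasDerivAt_id s).const_mul 4).add_const 8
    have h2 : HasDerivAt (fun t : ℝ => (4 * t + 8) / (1 + t) ^ 2)
        ((4 * (1 + s) ^ 2 - (4 * s + 8) * (2 * (1 + s) * 1)) / ((1 + s) ^ 2) ^ 2) s := by
      refine HasDerivAt.div hb ?_ (by positivity)
      have h5 := ha.pow 2
      refine h5.congr_deriv ?_
      norm_num
    have h3 := h2.const_sub 8
    refine h3.congr_deriv ?_
    field_simp
    ring

theorem sph (h1 : S_LOP) : S_SPH := by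
  have h0 := sph_first h1
  have hf : Continuous (fun t : ℝ => 96 / (1 + |t|) ^ 4) := by
    refine Continuous.div continuous_const (by fun_prop) ?_
    intro t
    positivity
  refine sph_key h1 _ (h1 _ hf).1 (fun s => s - Real.log (1 + s))
    (fun t => t ^ 2 - t - 1 / (1 + t) + 1) (by norm_num) ?_ (by norm_num) ?_ ?_
  · refine ContinuousOn.sub continuousOn_id (ContinuousOn.log (by fun_prop) ?_)
    intro x hx
    have hx' : (0 : ℝ) ≤ x := hx
    positivity
  · intro t ht
    have ht1 : (1 + t) ≠ 0 := by positivity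
    have ha : HasDerivAt (fun t : ℝ => 1 + t) 1 t := by
      simpa using (hasDerivAt_id t).const_add 1
    have h2 : HasDerivAt (fun t : ℝ => 1 / (1 + t)) ((0 * (1 + t) - 1 * 1) / (1 + t) ^ 2) t :=
      HasDerivAt.div (hasDerivAt_const t 1) ha (by positivity)
    have h3 : HasDerivAt (fun t : ℝ => t ^ 2) (2 * t) t := by simpa using hasDerivAt_pow 2 t
    have h4 := ((h3.sub (hasDerivAt_id t)).sub h2).add_const 1
    refine h4.congr_deriv ?_
    rw [h0 t ht]
    field_simp
    ring
  · intro s hs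
    have hs1 : (1 + s) ≠ 0 := by positivity
    have ha : HasDerivAt (fun t : ℝ => 1 + t) 1 s := by
      simpa using (hasDerivAt_id s).const_add 1
    have h3 := (hasDerivAt_id s).sub (ha.log hs1)
    refine h3.congr_deriv ?_
    field_simp
    ring

end Pool.Agent.Q82.QD
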